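import Pool.Agent.H37.Chip

set_option autoImplicit false

open Pool.Agent.H38.NP Pool.Agent.H37.Chip

/-- Chip-firing reachability is coNP-hard, already for the instances that are simple digraphs. -/
theorem Pool.Agent.Results.MP_5100e0_lc.CoHard.result : CoNPHardOn
    (fun p : ℕ × List ((ℕ × ℕ) × Bin) × List (Bool × Bin) × List (Bool × Bin) =>
      ∀ u v, multi p.1 p.2.1 u v ≤ 1 ∧ multi p.1 p.2.1 u u = 0)
    fun p => Relation.ReflTransGen (Step (multi p.1 p.2.1)) (chips p.1 p.2.2.1)
      (chips p.1 p.2.2.2) :=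
  reach_hard
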